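import Pool.Agent.Helper76.DE.StT

/-!
Module Ir of project PRD: density of the integer combinations of `log 2` and `log (3/2)`.
-/

set_option autoImplicit false

namespace Pool.Agent.Helper71.PRD

open Pool.Agent.Helper76.ND Pool.Agent.Helper76.DE Finset

private theorem la_pos : 0 < la := Real.log_pos (by norm_num)

private theorem lb_pos : 0 < lb := Real.log_pos (by norm_num)

private theorem no_rel (k m : ℕ) (hk : 0 < k) : (k : ℝ) * lb ≠ (m : ℝ) * la := by
  intro h
  unfold lb la at h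
  rw [← Real.log_pow, ← Real.log_pow] at h
  have h1 : ((3 / 2 : ℝ)) ^ k = 2 ^ m :=
    Real.log_injOn_pos (Set.mem_Ioi.2 (by positivity)) (Set.mem_Ioi.2 (by positivity)) h
  rw [div_pow, div_eq_iff (by positivity)] at h1
  have h2 : (3 : ℕ) ^ k = 2 ^ m * 2 ^ k := by exact_mod_cast h1
  have h3 : Odd ((3 : ℕ) ^ k) := Odd.pow (by decide)
  rw [h2] at h3
  have h4 : Even ((2 : ℕ) ^ m * 2 ^ k) := by
    apply Even.mul_left
    exact (Nat.even_pow' hk.ne').2 (by decide)
  exact (Nat.not_even_iff_odd.2 h3) h4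

private theorem small (η : ℝ) (hη : 0 < η) : ∃ p q : ℕ, (q : ℝ) * lb - (p : ℝ) * la ≠ 0 ∧
    |(q : ℝ) * lb - (p : ℝ) * la| ≤ η := by
  have hla := la_pos
  have hlb := lb_pos
  obtain ⟨n, hn⟩ := exists_nat_gt (la / η)
  have hn0 : 0 < n := by
    rcases Nat.eq_zero_or_pos n with h | h
    · exfalso
      rw [h, Nat.cast_zero] at hn
      have : 0 < la / η := by positivity
      linarith
    · exact h
  obtain ⟨k, hk0, -, hk⟩ := Real.exists_nat_abs_mul_sub_round_le (lb / la) hn0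
  have hr : 0 ≤ round ((k : ℝ) * (lb / la)) := by
    rw [round_eq]
    apply Int.floor_nonneg.2
    positivity
  refine ⟨(round ((k : ℝ) * (lb / la))).toNat, k, ?_, ?_⟩
  · intro h
    exact no_rel k _ hk0 (sub_eq_zero.1 h)
  · have hc : (((round ((k : ℝ) * (lb / la))).toNat : ℕ) : ℝ) = ((round ((k : ℝ) * (lb / la)) : ℤ) : ℝ) := by
      have := Int.toNat_of_nonneg hr
      exact_mod_cast this
    rw [hc]
    have e : (k : ℝ) * lb - ((round ((k : ℝ) * (lb / la)) : ℤ) : ℝ) * la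
        = la * ((k : ℝ) * (lb / la) - ((round ((k : ℝ) * (lb / la)) : ℤ) : ℝ)) := by
      field_simp
    rw [e, abs_mul, abs_of_pos hla]
    calc la * |(k : ℝ) * (lb / la) - ((round ((k : ℝ) * (lb / la)) : ℤ) : ℝ)|
        ≤ la * (1 / (n + 1)) := by gcongr
      _ ≤ η := by
        rw [mul_one_div, div_le_iff₀ (by positivity)]
        rw [div_lt_iff₀ hη] at hn
        nlinarith

private theorem mult (δ x η : ℝ) (hδ : 0 < δ) (hδη : δ ≤ η) (hx : 0 ≤ x) :
    ∃ k : ℕ, (k : ℝ) ≤ x / δ ∧ |(k : ℝ) * δ - x| ≤ η := by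
  refine ⟨⌊x / δ⌋₊, Nat.floor_le (by positivity), ?_⟩
  have h1 : ((⌊x / δ⌋₊ : ℕ) : ℝ) ≤ x / δ := Nat.floor_le (by positivity)
  have h2 : x / δ < (⌊x / δ⌋₊ : ℕ) + 1 := Nat.lt_floor_add_one _
  rw [le_div_iff₀ hδ] at h1
  rw [div_lt_iff₀ hδ] at h2
  rw [abs_le]
  constructor <;> nlinarith

theorem hIr : StIr := by
  intro T η hT hη
  have hla := la_pos
  have hlb := lb_pos
  obtain ⟨p, q, hne, hle⟩ := small η hη
  rcases lt_or_gt_of_ne hne with hneg | hpos
  · obtain ⟨N, hN⟩ := exists_nat_gt (T / lb)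
    rw [div_lt_iff₀ hlb] at hN
    set δ : ℝ := (p : ℝ) * la - (q : ℝ) * lb with hδ
    have hδ0 : 0 < δ := by rw [hδ]; linarith
    have hδη : δ ≤ η := by
      rw [abs_of_neg hneg] at hle
      rw [hδ]; linarith
    obtain ⟨K, hK⟩ := exists_nat_gt ((T + N * lb) / δ)
    refine ⟨K * p + K * q + N, ?_⟩
    intro τ hτ
    rw [abs_le] at hτ
    obtain ⟨k, hk1, hk2⟩ := mult δ ((N : ℝ) * lb - τ) η hδ0 hδη (by linarith [hτ.2])
    have hkK : k ≤ K := by
      have h1 : ((N : ℝ) * lb - τ) / δ ≤ (T + N * lb) / δ := by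
        gcongr
        linarith [hτ.1]
      have h2 : (k : ℝ) < K := by linarith
      exact (Nat.cast_lt.1 h2).le
    refine ⟨k * p, ?_, k * q + N, ?_, ?_⟩
    · have := Nat.mul_le_mul_right p hkK
      omega
    · have := Nat.mul_le_mul_right q hkK
      omega
    · have e : (((k * q + N : ℕ) : ℕ) : ℝ) * lb - ((k * p : ℕ) : ℝ) * la - τ
          = -((k : ℝ) * δ - ((N : ℝ) * lb - τ)) := by
        rw [hδ]
        push_cast
        ring
      rw [e, abs_neg]
      exact hk2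
  · obtain ⟨N, hN⟩ := exists_nat_gt (T / la)
    rw [div_lt_iff₀ hla] at hN
    set δ : ℝ := (q : ℝ) * lb - (p : ℝ) * la with hδ
    have hδη : δ ≤ η := by
      rw [abs_of_pos hpos] at hle
      exact hle
    obtain ⟨K, hK⟩ := exists_nat_gt ((T + N * la) / δ)
    refine ⟨K * p + K * q + N, ?_⟩
    intro τ hτ
    rw [abs_le] at hτ
    obtain ⟨k, hk1, hk2⟩ := mult δ ((N : ℝ) * la + τ) η hpos hδη (by linarith [hτ.1])
    have hkK : k ≤ K := by
      have h1 : ((N : ℝ) * la + τ) / δ ≤ (T + N * la) / δ := by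
        have : (N : ℝ) * la + τ ≤ T + N * la := by linarith [hτ.2]
        exact div_le_div_of_nonneg_right this hpos.le
      have h2 : (k : ℝ) < K := by linarith
      exact (Nat.cast_lt.1 h2).le
    refine ⟨k * p + N, ?_, k * q, ?_, ?_⟩
    · have := Nat.mul_le_mul_right p hkK
      omega
    · have := Nat.mul_le_mul_right q hkK
      omega
    · have e : ((k * q : ℕ) : ℝ) * lb - (((k * p + N : ℕ) : ℕ) : ℝ) * la - τ
          = ((k : ℝ) * δ - ((N : ℝ) * la + τ)) := by
        rw [hδ]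
        push_cast
        ring
      rw [e]
      exact hk2

end Pool.Agent.Helper71.PRD
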